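import Pool.Graph.R_seed8.W401.Cheb.Frob

/-! Completely split places: the algebraic part. -/

set_option autoImplicit false

namespace Pool.Agent.H331.R2.SplCore

open NumberField IsDedekindDomain
open Pool.Agent.W401.Cheb (GK IsFrob)

section group
variable (K E : Type) [Field K] [NumberField K] [Field E] [NumberField E]

/-- the automorphisms which fix all conjugates of `E` -/
def fixU : Subgroup (GK K) where
  carrier := {σ | ∀ (f : E →+* AlgebraicClosure K) (x : E), σ (f x) = f x}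
  mul_mem' := by
    intro a b ha hb f x
    rw [AlgEquiv.mul_apply, hb f x, ha f x]
  one_mem' := fun f x => rfl
  inv_mem' := by
    intro a ha f x
    have h := ha f x
    have h2 := congrArg (fun z => a⁻¹ z) h
    have h3 : a⁻¹ (a (f x)) = f x := by
      rw [← AlgEquiv.mul_apply, inv_mul_cancel, AlgEquiv.one_apply]
    exact (h3.symm.trans h2).symm

omit [NumberField K] [NumberField E] in
theorem fixU_normal : (fixU K E).Normal := by
  refine ⟨fun σ hσ τ f x => ?_⟩
  have h := hσ (((τ⁻¹ : GK K) : AlgebraicClosure K →+* AlgebraicClosure K).comp f) x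
  have h1 : σ (τ⁻¹ (f x)) = τ⁻¹ (f x) := h
  rw [AlgEquiv.mul_apply, AlgEquiv.mul_apply, h1, ← AlgEquiv.mul_apply, mul_inv_cancel,
    AlgEquiv.one_apply]

theorem fixU_open : IsOpen (fixU K E : Set (GK K)) := by
  classical
  let b := Module.finBasis ℚ E
  let S : Set (AlgebraicClosure K) :=
    Set.range (fun fi : (E →+* AlgebraicClosure K) × Fin (Module.finrank ℚ E) => fi.1 (b fi.2))
  have hS : Finite S := Set.finite_range _
  let L := IntermediateField.adjoin K S
  have hL : FiniteDimensional K L :=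
    IntermediateField.finiteDimensional_adjoin (fun x _ => Algebra.IsIntegral.isIntegral x)
  have h1 : L.fixingSubgroup ≤ fixU K E := by
    intro σ hσ f x
    rw [IntermediateField.mem_fixingSubgroup_iff] at hσ
    let F1 : E →ₐ[ℚ] AlgebraicClosure K :=
      (((σ : GK K) : AlgebraicClosure K →+* AlgebraicClosure K).comp f).toRatAlgHom
    let F2 : E →ₐ[ℚ] AlgebraicClosure K := f.toRatAlgHom
    have h2 : F1.toLinearMap = F2.toLinearMap := by
      apply b.ext
      intro i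
      exact hσ _ (IntermediateField.subset_adjoin K S ⟨(f, i), rfl⟩)
    exact congrArg (fun F : E →ₗ[ℚ] AlgebraicClosure K => F x) h2
  exact Subgroup.isOpen_mono h1 (IntermediateField.fixingSubgroup_isOpen L)

end group

section frob
variable {K E : Type} [Field K] [NumberField K] [Field E] [NumberField E]

/-- the prime ideal of `E` defined by an embedding -/
noncomputable def Pf (Q : Ideal (𝓞 (AlgebraicClosure K))) (f : E →+* AlgebraicClosure K) :
    Ideal (𝓞 E) := Q.comap (RingOfIntegers.mapRingHom f)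

theorem exists_f {p : ℕ} (hp : p.Prime) (Q : Ideal (𝓞 (AlgebraicClosure K))) (hQ : Q.IsPrime)
    (hpQ : (p : 𝓞 (AlgebraicClosure K)) ∈ Q) (w : HeightOneSpectrum (𝓞 E))
    (hw : (p : 𝓞 E) ∈ w.asIdeal) : ∃ f : E →+* AlgebraicClosure K, w.asIdeal = Pf Q f := by
  classical
  by_contra hcon
  push Not at hcon
  have hprime : ∀ f : E →+* AlgebraicClosure K, (Pf Q f).IsPrime := fun f => hQ.comap _
  have hnle : ∀ f : E →+* AlgebraicClosure K, ¬ w.asIdeal ≤ Pf Q f := by
    intro f hle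
    exact hcon f (w.isMaximal.eq_of_le (hprime f).ne_top hle)
  have h1 : ¬ ((w.asIdeal : Set (𝓞 E)) ⊆
      ⋃ f ∈ ((Finset.univ : Finset (E →ₐ[ℚ] AlgebraicClosure K)) :
        Set (E →ₐ[ℚ] AlgebraicClosure K)), (Pf Q (f : E →+* AlgebraicClosure K) : Set (𝓞 E))) := by
    have f0 : E →ₐ[ℚ] AlgebraicClosure K := IsAlgClosed.lift
    rw [Ideal.subset_union_prime f0 f0 (fun f _ _ _ => hprime f)]
    rintro ⟨f, -, hf⟩
    exact hnle f hf
  rw [Set.not_subset] at h1
  obtain ⟨x, hxw, hx⟩ := h1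
  have hx' : ∀ f : E →ₐ[ℚ] AlgebraicClosure K,
      RingOfIntegers.mapRingHom (f : E →+* AlgebraicClosure K) x ∉ Q := by
    intro f hf
    apply hx
    simp only [Set.mem_iUnion]
    exact ⟨f, Finset.mem_coe.2 (Finset.mem_univ f), hf⟩
  -- the norm of `x`
  have hdvd : (p : ℤ) ∣ Algebra.norm ℤ x := by
    have h2 : Ideal.absNorm w.asIdeal ∣ Ideal.absNorm (Ideal.span {x}) :=
      Ideal.absNorm_dvd_absNorm_of_le ((Ideal.span_singleton_le_iff_mem _).2 hxw)
    rw [Ideal.absNorm_span_singleton] at h2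
    have h3 : p ∣ Ideal.absNorm w.asIdeal := by
      by_contra hnd
      have hcop : Nat.Coprime p (Ideal.absNorm w.asIdeal) := (hp.coprime_iff_not_dvd).2 hnd
      have h7 : ((Ideal.absNorm w.asIdeal : ℕ) : 𝓞 E) ∈ w.asIdeal := Ideal.absNorm_mem _
      apply w.isPrime.ne_top
      rw [Ideal.eq_top_iff_one]
      have h8 := Nat.gcd_eq_gcd_ab p (Ideal.absNorm w.asIdeal)
      rw [hcop.gcd_eq_one] at h8
      have h9 : (1 : 𝓞 E) = (p : 𝓞 E) * (p.gcdA (Ideal.absNorm w.asIdeal) : 𝓞 E) +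
          (Ideal.absNorm w.asIdeal : 𝓞 E) * (p.gcdB (Ideal.absNorm w.asIdeal) : 𝓞 E) := by
        exact_mod_cast congrArg (fun z : ℤ => (z : 𝓞 E)) h8
      rw [h9]
      exact w.asIdeal.add_mem (w.asIdeal.mul_mem_right _ hw) (w.asIdeal.mul_mem_right _ h7)
    exact Int.natCast_dvd.2 (h3.trans h2)
  have hprod : ∏ f : E →ₐ[ℚ] AlgebraicClosure K,
      RingOfIntegers.mapRingHom (f : E →+* AlgebraicClosure K) x =
        ((Algebra.norm ℤ x : ℤ) : 𝓞 (AlgebraicClosure K)) := by
    apply RingOfIntegers.coe_injective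
    have h4 := Algebra.norm_eq_prod_embeddings ℚ (AlgebraicClosure K) (x : E)
    rw [← Algebra.coe_norm_int, map_intCast] at h4
    rw [map_intCast, h4, map_prod]
    rfl
  have hmem : ∏ f : E →ₐ[ℚ] AlgebraicClosure K,
      RingOfIntegers.mapRingHom (f : E →+* AlgebraicClosure K) x ∈ Q := by
    rw [hprod]
    obtain ⟨c, hc⟩ := hdvd
    rw [hc, Int.cast_mul, Int.cast_natCast]
    exact Q.mul_mem_right _ hpQ
  obtain ⟨f, -, hf⟩ := (hQ.prod_mem_iff).1 hmem
  exact hx' f hf

/-- residue field with `p` elements -/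
theorem card_of_pow {p : ℕ} (hp : p.Prime) (w : HeightOneSpectrum (𝓞 E))
    (hw : (p : 𝓞 E) ∈ w.asIdeal) (h : ∀ x : 𝓞 E, x ^ p - x ∈ w.asIdeal) :
    Ideal.absNorm w.asIdeal = p := by
  classical
  have hmax := w.isMaximal
  let F := 𝓞 E ⧸ w.asIdeal
  let : Field F := Ideal.Quotient.field w.asIdeal
  have hfin : Finite F := Ring.HasFiniteQuotients.finiteQuotient w.ne_bot
  let : Fintype F := Fintype.ofFinite F
  have h1 : Ideal.absNorm w.asIdeal = Fintype.card F := by
    rw [Ideal.absNorm_apply, Submodule.cardQuot_apply, Nat.card_eq_fintype_card]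
  rw [h1]
  have hpF : (p : F) = 0 := by
    have h2 : (Ideal.Quotient.mk w.asIdeal) (p : 𝓞 E) = 0 := Ideal.Quotient.eq_zero_iff_mem.2 hw
    rwa [map_natCast] at h2
  have hch : CharP F p := by
    have := CharP.exists F
    obtain ⟨q, hq⟩ := this
    have h3 : q ∣ p := (CharP.cast_eq_zero_iff F q p).1 hpF
    rcases (Nat.dvd_prime hp).1 h3 with h4 | h4
    · exfalso
      rw [h4] at hq
      exact CharP.char_ne_one F 1 rfl
    · rwa [h4] at hq
  apply le_antisymm
  · -- the roots of `X ^ p - X`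
    have hpol : (Polynomial.X ^ p - Polynomial.X : Polynomial F) ≠ 0 :=
      FiniteField.X_pow_card_sub_X_ne_zero F hp.one_lt
    have hdeg : (Polynomial.X ^ p - Polynomial.X : Polynomial F).natDegree = p :=
      FiniteField.X_pow_card_sub_X_natDegree_eq F hp.one_lt
    have h5 := Polynomial.card_le_degree_of_subset_roots
      (p := (Polynomial.X ^ p - Polynomial.X : Polynomial F)) (Z := (Finset.univ : Finset F)) (by
        intro y _
        rw [Polynomial.mem_roots hpol, Polynomial.IsRoot.def]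
        obtain ⟨x, rfl⟩ := Ideal.Quotient.mk_surjective y
        rw [Polynomial.eval_sub, Polynomial.eval_pow, Polynomial.eval_X, ← map_pow, ← map_sub]
        exact Ideal.Quotient.eq_zero_iff_mem.2 (h x))
    rw [hdeg, Finset.card_univ] at h5
    exact h5
  · have h6 : p ∣ Fintype.card F := by
      have h7 := FiniteField.card F p
      obtain ⟨n, -, hn⟩ := h7
      rw [hn]
      exact dvd_pow_self p n.ne_zero
    exact Nat.le_of_dvd Fintype.card_pos h6

theorem unram_of {p : ℕ} (hp : p.Prime) (h : ¬ (p : ℤ) ∣ discr E)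
    (v : HeightOneSpectrum (𝓞 E)) (hv : (p : 𝓞 E) ∈ v.asIdeal) : (p : 𝓞 E) ∉ v.asIdeal ^ 2 := by
  intro h2
  apply h
  have hpZ : Prime (p : ℤ) := Nat.prime_iff_prime_int.1 hp
  have hmax : (Ideal.span {(p : ℤ)}).IsMaximal :=
    PrincipalIdealRing.isMaximal_of_irreducible hpZ.irreducible
  have hne : Ideal.span {(p : ℤ)} ≠ ⊥ := by
    rw [Ne, Ideal.span_singleton_eq_bot]
    exact hpZ.ne_zero
  have h3 : v.asIdeal ^ 2 ∣ (Ideal.span {(p : ℤ)}).map (algebraMap ℤ (𝓞 E)) := by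
    rw [Ideal.map_span, Set.image_singleton, Ideal.dvd_span_singleton]
    simpa using h2
  have h4 := pow_sub_one_dvd_differentIdeal ℤ v.asIdeal 2 hne h3
  rw [show 2 - 1 = 1 from rfl, pow_one] at h4
  have h5 := Ideal.absNorm_dvd_absNorm_of_le (Ideal.dvd_iff_le.1 h4)
  rw [NumberField.absNorm_differentIdeal E (𝓞 E)] at h5
  have h6 : p ∣ Ideal.absNorm v.asIdeal := by
    by_contra hnd
    have hcop : Nat.Coprime p (Ideal.absNorm v.asIdeal) := (hp.coprime_iff_not_dvd).2 hnd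
    have h7 : ((Ideal.absNorm v.asIdeal : ℕ) : 𝓞 E) ∈ v.asIdeal := Ideal.absNorm_mem _
    apply v.isPrime.ne_top
    rw [Ideal.eq_top_iff_one]
    have h8 := Nat.gcd_eq_gcd_ab p (Ideal.absNorm v.asIdeal)
    rw [hcop.gcd_eq_one] at h8
    have h9 : (1 : 𝓞 E) = (p : 𝓞 E) * (p.gcdA (Ideal.absNorm v.asIdeal) : 𝓞 E) +
        ((Ideal.absNorm v.asIdeal : ℕ) : 𝓞 E) * (p.gcdB (Ideal.absNorm v.asIdeal) : 𝓞 E) := by
      exact_mod_cast congrArg (Int.cast : ℤ → 𝓞 E) h8
    rw [h9]
    exact v.asIdeal.add_mem (v.asIdeal.mul_mem_right _ hv) (v.asIdeal.mul_mem_right _ h7)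
  exact Int.natCast_dvd.2 (h6.trans h5)

/-- the prime number in a place of degree one is its norm -/
theorem eq_norm {p : ℕ} (hp : p.Prime) (v : HeightOneSpectrum (𝓞 K))
    (hv : (p : 𝓞 K) ∈ v.asIdeal) (hq : (Ideal.absNorm v.asIdeal).Prime) :
    Ideal.absNorm v.asIdeal = p := by
  by_contra hne
  have hcop : Nat.Coprime p (Ideal.absNorm v.asIdeal) :=
    (Nat.coprime_primes hp hq).2 fun h => hne h.symm
  have h7 : ((Ideal.absNorm v.asIdeal : ℕ) : 𝓞 K) ∈ v.asIdeal := Ideal.absNorm_mem _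
  apply v.isPrime.ne_top
  rw [Ideal.eq_top_iff_one]
  have h8 := Nat.gcd_eq_gcd_ab p (Ideal.absNorm v.asIdeal)
  rw [hcop.gcd_eq_one] at h8
  have h9 : (1 : 𝓞 K) = (p : 𝓞 K) * (p.gcdA (Ideal.absNorm v.asIdeal) : 𝓞 K) +
      (Ideal.absNorm v.asIdeal : 𝓞 K) * (p.gcdB (Ideal.absNorm v.asIdeal) : 𝓞 K) := by
    exact_mod_cast congrArg (fun z : ℤ => (z : 𝓞 K)) h8
  rw [h9]
  exact v.asIdeal.add_mem (v.asIdeal.mul_mem_right _ hv) (v.asIdeal.mul_mem_right _ h7)

/-- places of degree one with a Frobenius element in `fixU` are completely split in `E` -/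
theorem split (v : HeightOneSpectrum (𝓞 K)) (σ : GK K) (hσ : IsFrob v σ) (hU : σ ∈ fixU K E)
    (hq : (Ideal.absNorm v.asIdeal).Prime) (hd : ((discr E : ℤ) : 𝓞 K) ∉ v.asIdeal)
    {p : ℕ} (hp : p.Prime) (hpv : (p : 𝓞 K) ∈ v.asIdeal) (w : HeightOneSpectrum (𝓞 E))
    (hpw : (p : 𝓞 E) ∈ w.asIdeal) :
    Ideal.absNorm w.asIdeal = p ∧ (p : 𝓞 E) ∉ w.asIdeal ^ 2 := by
  have hvp := eq_norm hp v hpv hq
  obtain ⟨Q, hQ, hQv, hfr⟩ := hσ
  rw [hvp] at hfr
  have hpQ : (p : 𝓞 (AlgebraicClosure K)) ∈ Q := by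
    have h1 : (p : 𝓞 K) ∈ Q.comap (algebraMap (𝓞 K) (𝓞 (AlgebraicClosure K))) := by
      rw [hQv]
      exact hpv
    rw [Ideal.mem_comap, map_natCast] at h1
    exact h1
  constructor
  · obtain ⟨f, hf⟩ := exists_f hp Q hQ.isPrime hpQ w hpw
    refine card_of_pow hp w hpw fun x => ?_
    rw [hf]
    show RingOfIntegers.mapRingHom f (x ^ p - x) ∈ Q
    have h2 := hfr (RingOfIntegers.mapRingHom f x)
    have h3 : σ • RingOfIntegers.mapRingHom f x = RingOfIntegers.mapRingHom f x := by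
      apply RingOfIntegers.ext
      exact hU f x
    rw [h3] at h2
    rw [map_sub, map_pow, ← neg_sub]
    exact Q.neg_mem h2
  · refine unram_of hp (fun hdvd => hd ?_) w hpw
    obtain ⟨c, hc⟩ := hdvd
    rw [hc, Int.cast_mul, Int.cast_natCast]
    exact v.asIdeal.mul_mem_right _ hpv

end frob

end Pool.Agent.H331.R2.SplCore
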