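import Pool.Agent.H500.R2.Stm
import Pool.Agent.H331.R2.SplCore
import Pool.Graph.R_seed8.W528.Ord.Dens

/-! Part 8 of project R2: Chebotarev with completely split places. -/

set_option autoImplicit false

namespace Pool.Agent.H331.R2.Spl

open NumberField IsDedekindDomain Filter Topology
open Pool.Agent.W401.Cheb (GK IsFrob dens)
open Pool.Agent.H500.MW (PosUD)
open Pool.Agent.H331.R2.SplCore

theorem main : Pool.Agent.H500.R2.S_Spl := by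
  intro K E _ _ _ _
  have hn := fixU_normal K E
  have ho := fixU_open K E
  refine ⟨fixU K E, ho, hn, fun U' hU'n hU'o g hg N hN => ?_⟩
  -- the class
  let U : Subgroup (GK K) := U' ⊓ fixU K E
  have hUn : U.Normal := inferInstance
  have hUo : IsOpen (U : Set (GK K)) := hU'o.inter ho
  let C : Set (GK K) := {σ | ∃ τ : GK K, g⁻¹ * (τ * σ * τ⁻¹) ∈ U}
  have hC1 : ∀ σ ∈ C, ∀ τ : GK K, τ * σ * τ⁻¹ ∈ C := by
    rintro σ ⟨ρ, hρ⟩ τ
    refine ⟨ρ * τ⁻¹, ?_⟩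
    have h1 : (ρ * τ⁻¹) * (τ * σ * τ⁻¹) * (ρ * τ⁻¹)⁻¹ = ρ * σ * ρ⁻¹ := by group
    rw [h1]
    exact hρ
  have hC2 : ∀ σ ∈ C, ∀ u ∈ U, σ * u ∈ C := by
    rintro σ ⟨ρ, hρ⟩ u hu
    refine ⟨ρ, ?_⟩
    have h1 : g⁻¹ * (ρ * (σ * u) * ρ⁻¹) = (g⁻¹ * (ρ * σ * ρ⁻¹)) * (ρ * u * ρ⁻¹) := by group
    rw [h1]
    exact U.mul_mem hρ (hUn.conj_mem u hu ρ)
  have hch := Pool.Agent.W528.Ord.chebK K U hUo C hC1 hC2
  have hfin : Finite (GK K ⧸ U) := Subgroup.quotient_finite_of_isOpen U hUo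
  have hgC : g ∈ C := by
    refine ⟨1, ?_⟩
    have h1 : g⁻¹ * (1 * g * 1⁻¹) = 1 := by group
    rw [h1]
    exact U.one_mem
  have hpos : 0 < ((((QuotientGroup.mk : GK K → GK K ⧸ U) '' C).ncard : ℝ) /
      (Nat.card (GK K ⧸ U) : ℝ)) := by
    apply div_pos
    · rw [Nat.cast_pos, Set.ncard_pos (Set.toFinite _)]
      exact ⟨_, g, hgC, rfl⟩
    · rw [Nat.cast_pos]
      exact Nat.card_pos
  have hP0 : PosUD (fun v : HeightOneSpectrum (𝓞 K) => ∃ σ ∈ C, IsFrob v σ) := by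
    refine ⟨_, half_pos hpos, Eventually.frequently ?_⟩
    exact (hch.eventually (lt_mem_nhds (half_lt_self hpos))).mono fun n h => h.le
  have hP1 := hP0.diff (Pool.Agent.W528.Ord.dens_not_prime (K := K))
  have hx : ((N : 𝓞 K) * ((discr E : ℤ) : 𝓞 K)) ≠ 0 := by
    apply mul_ne_zero
    · exact Nat.cast_ne_zero.2 hN.ne'
    · exact Int.cast_ne_zero.2 (discr_ne_zero E)
  have hP2 := (hP1.diff (Pool.Agent.H500.Kum.dens_fin _ (Pool.Agent.H500.Kum.fin_mem hx))).infinite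
  refine hP2.mono fun v hv => ?_
  obtain ⟨⟨⟨σ, ⟨τ, hτ⟩, hfr⟩, hpr⟩, hnot⟩ := hv
  have hpr' : (Ideal.absNorm v.asIdeal).Prime := not_not.1 hpr
  have hfr' : IsFrob v (τ * σ * τ⁻¹) := by
    obtain ⟨Q, hQ, hQv, hQσ⟩ := hfr
    exact ⟨Pool.Agent.W401.Frob.tr τ Q, Pool.Agent.W401.Frob.tr_max τ Q hQ,
      (Pool.Agent.W401.Frob.tr_comap τ Q).trans hQv,
      Pool.Agent.W401.Frob.frob_conj v σ τ Q hQσ⟩
  have hU : τ * σ * τ⁻¹ ∈ fixU K E := by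
    have h2 := (fixU K E).mul_mem hg hτ.2
    rwa [mul_inv_cancel_left] at h2
  have hd : ((discr E : ℤ) : 𝓞 K) ∉ v.asIdeal := fun h =>
    hnot (v.asIdeal.mul_mem_left _ h)
  refine ⟨fun h => hnot (v.asIdeal.mul_mem_right _ h), ?_, τ * σ * τ⁻¹, hfr', hτ.1⟩
  intro p w hp hpv hpw
  exact split v _ hfr' hU hpr' hd hp hpv w hpw

end Pool.Agent.H331.R2.Spl
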